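import Pool.Agent.Helper97.SZ.Goals

/-!
# MP_126465_gt, project SZ, packet CONJ: conjugation of a compactly supported diffeomorphism by an
embedding
-/

set_option autoImplicit false

open Set Filter Topology Metric
open scoped ContDiff

namespace Pool.Agent.Helper74.SZ

open Pool.Agent.Helper91.SY Pool.Agent.Helper97.SZ

section

variable {E : Type} [NormedAddCommGroup E] [NormedSpace ℝ E]

open scoped Classical in
/-- the map which is `ψ ∘ c ∘ ψ⁻¹` on `ψ '' U` and the identity outside -/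
noncomputable def cj (ψ : E → E) (U : Set E) (c : E → E) (y : E) : E :=
  if y ∈ ψ '' U then ψ (c (Function.invFunOn ψ U y)) else y

omit [NormedSpace ℝ E] in
theorem cj_apply {ψ : E → E} {U : Set E} (hinj : InjOn ψ U) (c : E → E) {x : E} (hx : x ∈ U) :
    cj ψ U c (ψ x) = ψ (c x) := by
  unfold cj
  rw [if_pos (mem_image_of_mem ψ hx), hinj.leftInvOn_invFunOn hx]

theorem cj_off {ψ : E → E} {U K : Set E} (hinj : InjOn ψ U) {c : E → E}
    (hc : ∀ x, x ∉ K → c x = x) {y : E} (hy : y ∉ ψ '' K) : cj ψ U c y = y := by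
  by_cases h : y ∈ ψ '' U
  · obtain ⟨x, hx, rfl⟩ := h
    rw [cj_apply hinj c hx, hc x fun hxK => hy (mem_image_of_mem ψ hxK)]
  · unfold cj
    rw [if_neg h]

theorem cj_cj {ψ : E → E} {U : Set E} (hinj : InjOn ψ U) {c c' : E → E}
    (hU : ∀ x ∈ U, c x ∈ U) (hcc : ∀ x, c' (c x) = x) (y : E) :
    cj ψ U c' (cj ψ U c y) = y := by
  by_cases h : y ∈ ψ '' U
  · obtain ⟨x, hx, rfl⟩ := h
    rw [cj_apply hinj c hx, cj_apply hinj c' (hU x hx), hcc]
  · have h1 : cj ψ U c y = y := by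
      unfold cj
      rw [if_neg h]
    rw [h1]
    unfold cj
    rw [if_neg h]

variable [FiniteDimensional ℝ E]

theorem cj_smooth {ψ : E → E} {U K : Set E} {c : E → E} (hU : IsOpen U) (hK : IsCompact K)
    (hKU : K ⊆ U) (hψ : ContDiffOn ℝ ∞ ψ U) (hinj : InjOn ψ U)
    (hd : ∀ x ∈ U, Function.Injective (fderiv ℝ ψ x)) (hcs : ContDiff ℝ ∞ c)
    (hcU : ∀ x ∈ U, c x ∈ U) (hc : ∀ x, x ∉ K → c x = x) : ContDiff ℝ ∞ (cj ψ U c) := by
  rw [contDiff_iff_contDiffAt]
  intro y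
  by_cases hy : y ∈ ψ '' U
  · obtain ⟨x, hx, rfl⟩ := hy
    have h1 : ContDiffAt ℝ ∞ ψ x := hψ.contDiffAt (hU.mem_nhds hx)
    obtain ⟨e, he⟩ : ∃ e : E ≃L[ℝ] E, (e : E →L[ℝ] E) = fderiv ℝ ψ x := by
      refine ⟨(LinearEquiv.ofInjectiveEndo ((fderiv ℝ ψ x : E →L[ℝ] E) : E →ₗ[ℝ] E)
        (hd x hx)).toContinuousLinearEquiv, ?_⟩
      ext v
      rfl
    have hn : (∞ : WithTop ℕ∞) ≠ 0 := by simp
    have h2 : HasFDerivAt ψ (e : E →L[ℝ] E) x := by
      rw [he]
      exact (h1.differentiableAt hn).hasFDerivAt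
    have h3 := h1.to_localInverse h2 hn
    have h4 : h1.localInverse h2 hn (ψ x) = x := h1.localInverse_apply_image h2 hn
    have h5 : ∀ᶠ y' in 𝓝 (ψ x), ψ (h1.localInverse h2 hn y') = y' :=
      (h1.hasStrictFDerivAt' h2 hn).eventually_right_inverse
    have h6 : ∀ᶠ y' in 𝓝 (ψ x), h1.localInverse h2 hn y' ∈ U := by
      have h7 : ContinuousAt (h1.localInverse h2 hn) (ψ x) := h3.continuousAt
      refine h7.eventually (hU.mem_nhds ?_)
      rw [h4]
      exact hx
    have h8 : cj ψ U c =ᶠ[𝓝 (ψ x)] fun y' => ψ (c (h1.localInverse h2 hn y')) := by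
      filter_upwards [h5, h6] with y' hy1 hy2
      rw [← cj_apply hinj c hy2, hy1]
    refine ContDiffAt.congr_of_eventuallyEq ?_ h8
    have h9 : ContDiffAt ℝ ∞ ψ (c (h1.localInverse h2 hn (ψ x))) := by
      rw [h4]
      exact hψ.contDiffAt (hU.mem_nhds (hcU x hx))
    exact h9.comp (ψ x) (hcs.contDiffAt.comp (ψ x) h3)
  · have hyK : y ∉ ψ '' K := fun h => hy (image_mono hKU h)
    have hcl : IsClosed (ψ '' K) := (hK.image_of_continuousOn (hψ.continuousOn.mono hKU)).isClosed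
    have h8 : cj ψ U c =ᶠ[𝓝 y] fun y' => y' := by
      filter_upwards [hcl.isOpen_compl.mem_nhds hyK] with y' hy'
      exact cj_off hinj hc hy'
    exact contDiffAt_id.congr_of_eventuallyEq h8

end

/-- **CONJ** (conjugation of a compactly supported diffeomorphism by an embedding). -/
theorem conj : StmtCONJ := by
  intro E _ _ _ ψ U K c hU hK hKU hψ hinj hd hsm hc
  have hc' : ∀ x, x ∉ K → c.symm x = x := by
    intro x hx
    rw [Equiv.symm_apply_eq]
    exact (hc x hx).symm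
  have hcK : ∀ x ∈ K, c x ∈ K := by
    intro x hx
    by_contra h
    have h1 := hc' (c x) h
    rw [Equiv.symm_apply_apply] at h1
    rw [← h1] at h
    exact h hx
  have hcK' : ∀ x ∈ K, c.symm x ∈ K := by
    intro x hx
    by_contra h
    have h1 := hc (c.symm x) h
    rw [Equiv.apply_symm_apply] at h1
    rw [← h1] at h
    exact h hx
  have hcU : ∀ x ∈ U, c x ∈ U := by
    intro x hx
    by_cases h : x ∈ K
    · exact hKU (hcK x h)
    · rw [hc x h]
      exact hx
  have hcU' : ∀ x ∈ U, c.symm x ∈ U := by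
    intro x hx
    by_cases h : x ∈ K
    · exact hKU (hcK' x h)
    · rw [hc' x h]
      exact hx
  refine ⟨⟨cj ψ U c, cj ψ U c.symm, cj_cj hinj hcU c.symm_apply_apply,
    cj_cj hinj hcU' c.apply_symm_apply⟩, ⟨?_, ?_⟩, ?_, ?_⟩
  · exact cj_smooth hU hK hKU hψ hinj hd hsm.1 hcU hc
  · exact cj_smooth hU hK hKU hψ hinj hd hsm.2 hcU' hc'
  · intro y hy
    exact cj_off hinj hc hy
  · intro x hx
    exact cj_apply hinj c hx

end Pool.Agent.Helper74.SZ
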